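import Pool.Agent.Lib.MP_0087d5_lc.LF.Progs

set_option autoImplicit false
set_option linter.all false

/-!
# Deleting few vertices: correctness of the programs
-/

namespace Pool.Agent.LF

open Relation Pool.Agent.PMNC Pool.Agent.UPM Pool.Agent.AUG

variable {n k c : ℕ} {G H M : SimpleGraph (Fin n)} {f : Fin n → Fin n} {t : TT k → Fin n}

theorem is_fromRel {C : Fin n → Fin n → Prop} (hf : IsM H.Adj f) (h : ∀ x y, C x y ↔ y = f x) :
    Is (SimpleGraph.fromRel C) f := by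
  intro x y
  rw [SimpleGraph.fromRel_adj, h, h]
  constructor
  · rintro ⟨h1, h2 | h2⟩
    · exact h2
    · rw [h2, hf.1]
  · intro h1
    subst h1
    exact ⟨(hf.2 x).ne, Or.inl rfl⟩

theorem few_rsK (hf : IsM H.Adj f) (hM : Is M f) {x : Fin n} :
    few c n (rsK n (H, M) x) ↔ Nat.card (Loc H.Adj f x) ≤ n ^ c := by
  unfold few
  rw [card_pm, rsK_card hf hM]
  constructor
  · exact fun h => h.2
  · intro h
    refine ⟨?_, h⟩
    have : Nonempty (Loc H.Adj f x) := ⟨⟨f, hf, fun _ _ => rfl⟩⟩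
    exact Nat.one_le_iff_ne_zero.2 Nat.card_pos.ne'

theorem isPM_of {C : Fin n → Fin n → Prop} (hf : IsM H.Adj f) (h : ∀ x y, C x y ↔ y = f x) :
    IsPM H C := by
  intro v
  refine ⟨⟨f v, (h _ _).2 rfl⟩, fun w hw => ?_⟩
  rw [h] at hw
  subst hw
  refine ⟨hf.2 v, (h _ _).2 (hf.1 v).symm, fun w' hw' => ?_⟩
  rw [h] at hw'
  exact hw'.symm

/-- the parameters -/
noncomputable def mkp (t : TT k → Fin n) (m a : Sc c n) : PP c k → Fin n :=
  Sum.elim t (Sum.elim (vec (E := Sc c) n m) (vec (E := Sc c) n a))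

theorem pT_mkp (t : TT k → Fin n) (m a : Sc c n) : pT (mkp t m a) = t := rfl

theorem pm_mkp (t : TT k → Fin n) (m a : Sc c n) : pm (mkp t m a) = m :=
  (vec (E := Sc c) n).symm_apply_apply m

theorem pa_mkp (t : TT k → Fin n) (m a : Sc c n) : pa (mkp t m a) = a :=
  (vec (E := Sc c) n).symm_apply_apply a

theorem inj_iff {p : PP c k → Fin n} : inj p ↔ Function.Injective (pT p) := by
  constructor
  · intro h i j hij
    by_contra hc
    exact h i j hc hij
  · intro h i j hij hc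
    exact hij (h hc)

theorem p_spec {p : PP c k → Fin n} (h : IsPM (hg G (pT p)) (cMp G p)) :
    ∃ f, IsM (hg G (pT p)).Adj f ∧ Is (mgp G p) f := by
  obtain ⟨f, hf, hC⟩ := map_of_isPM (C := cM (hg G (pT p)) (pm p)) (a := pa p) h
  exact ⟨f, hf, is_fromRel hf hC⟩

theorem T1_iff (hn : 2 ≤ n) : T1 c k n G ↔
    ∃ t : TT k → Fin n, Function.Injective t ∧ lf (hg G t).Adj (n ^ c) := by
  constructor
  · rintro ⟨p, h1, h2, h3⟩
    obtain ⟨f, hf, hM⟩ := p_spec h2
    exact ⟨pT p, inj_iff.1 h1, f, hf, fun x => (few_rsK hf hM).1 (h3 x)⟩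
  · rintro ⟨t, ht, hl⟩
    obtain ⟨m, a, f, hf, hC⟩ := exists_cM (S := Sc c) (dim_Sc c) hn (hg G t) hl
    refine ⟨mkp t m a, inj_iff.2 ht, ?_, fun x => ?_⟩
    · refine isPM_of (f := f) hf ?_
      unfold cMp
      rw [pm_mkp, pa_mkp]
      exact hC
    · have hM : Is (mgp G (mkp t m a)) f := by
        refine is_fromRel hf ?_
        unfold cMp
        rw [pm_mkp, pa_mkp]
        exact hC
      exact (few_rsK hf hM).2 ((lf_iff hf).1 hl x)

theorem aug_it {M : SimpleGraph (Fin n)} (h : IsMat G M) (j : ℕ) : IsMat G ((augG n G)^[j] M) ∧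
    (IsMaxMat G ((augG n G)^[j] M) ∨ M.edgeSet.ncard + j ≤ ((augG n G)^[j] M).edgeSet.ncard) := by
  induction j with
  | zero => exact ⟨h, Or.inr le_rfl⟩
  | succ j ih =>
    rw [Function.iterate_succ_apply']
    obtain ⟨h1, h2⟩ := ih
    obtain ⟨h3, h4⟩ := augG_spec h1
    refine ⟨h3, ?_⟩
    rcases h4 with ⟨h4, h5⟩ | h4
    · left
      rw [h5]
      exact h4
    · rcases h2 with h2 | h2
      · exact absurd (h2.2 _ h3) (by omega)
      · right
        omega

theorem dl_isMat (hf : IsM (hg G t).Adj f) (hM : Is M f) : IsMat G (dl M t) := by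
  constructor
  · intro x y h
    have h1 := (hM x y).1 h.1
    subst h1
    rcases hf.2 x with h2 | ⟨_, p, h2, _⟩
    · exact h2.1
    · exact absurd h2 (h.2.1 p)
  · intro v w w' h h'
    rw [(hM _ _).1 h.1, (hM _ _).1 h'.1]

theorem two_e {m : Fin n → Fin n} (h : Mate G m) (hM : IsMateOf M m) :
    2 * M.edgeSet.ncard = {w | m w ≠ w}.ncard := by
  classical
  rw [two_edges h hM, Set.ncard_eq_toFinset_card']
  congr 1
  ext w
  simp

theorem dl_card (hf : IsM (hg G t).Adj f) (hM : Is M f) :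
    n ≤ 2 * (dl M t).edgeSet.ncard + 2 * k := by
  classical
  obtain ⟨m, hm, hmM⟩ := exists_mate (dl_isMat hf hM)
  rw [two_e hm hmM, Set.ncard_eq_toFinset_card']
  have h1 : (Finset.univ.filter (fun w : Fin n => ∀ p, t p ≠ w)) ⊆
      {w | m w ≠ w}.toFinset := by
    intro w hw
    rw [Finset.mem_filter] at hw
    rw [Set.mem_toFinset]
    change m w ≠ w
    have hw2 := hw.2
    have h2 : (dl M t).Adj w (f w) := by
      rcases hf.2 w with h3 | ⟨_, p, h3, _⟩
      · exact ⟨(hM _ _).2 rfl, h3.2.1, h3.2.2⟩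
      · exact absurd h3 (hw2 p)
    have h3 := (hmM _ _).1 h2
    rw [h3.1]
    exact h3.2.symm
  have h2 := Finset.card_le_card h1
  have h3 : (Finset.univ : Finset (Fin n)) ⊆ (Finset.univ.filter (fun w : Fin n => ∀ p, t p ≠ w)) ∪
      Finset.univ.image t := by
    intro w _
    rw [Finset.mem_union]
    by_cases hw : ∀ p, t p ≠ w
    · exact Or.inl (Finset.mem_filter.2 ⟨Finset.mem_univ _, hw⟩)
    · push Not at hw
      obtain ⟨p, hp⟩ := hw
      exact Or.inr (Finset.mem_image.2 ⟨p, Finset.mem_univ _, hp⟩)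
  have h4 := (Finset.card_le_card h3).trans (Finset.card_union_le _ _)
  have h5 : (Finset.univ.image t).card ≤ 2 * k := by
    refine Finset.card_image_le.trans ?_
    rw [Finset.card_univ, Fintype.card_prod]
    simp
    omega
  rw [Finset.card_univ, Fintype.card_fin] at h4
  omega

theorem covers_of_card {N : SimpleGraph (Fin n)} (h : IsMat G N) (hc : n ≤ 2 * N.edgeSet.ncard) :
    ∀ x, ∃ y, N.Adj x y := by
  classical
  obtain ⟨m, hm, hmM⟩ := exists_mate h
  rw [two_e hm hmM, Set.ncard_eq_toFinset_card'] at hc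
  have h1 : {w | m w ≠ w}.toFinset = Finset.univ := by
    apply Finset.eq_univ_of_card
    rw [Fintype.card_fin]
    refine le_antisymm ?_ hc
    refine (Finset.card_le_univ _).trans ?_
    rw [Fintype.card_fin]
  intro x
  have h2 : x ∈ {w | m w ≠ w}.toFinset := by
    rw [h1]
    exact Finset.mem_univ _
  rw [Set.mem_toFinset] at h2
  exact ⟨m x, (hmM _ _).2 ⟨rfl, h2.symm⟩⟩

theorem hasPM_of_covers {N : SimpleGraph (Fin n)} (h : IsMat G N) (hc : ∀ x, ∃ y, N.Adj x y) :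
    HasPM G := by
  choose f hf using hc
  refine hasPM_iff.2 ⟨f, fun v => ?_, fun v => h.1 (hf v)⟩
  exact h.2 (f v) _ _ (hf (f v)) (hf v).symm

theorem card_of_hasPM {N : SimpleGraph (Fin n)} (h : IsMaxMat G N) (hG : HasPM G) :
    n ≤ 2 * N.edgeSet.ncard := by
  classical
  obtain ⟨f, h1, h2⟩ := hasPM_iff.1 hG
  have hf : IsM G.Adj f := ⟨h1, h2⟩
  obtain ⟨hm, hne⟩ := isM_mate.1 hf
  obtain ⟨K, hK1, hK2⟩ := exists_graph hm
  have h3 := two_e hm hK2
  have h4 : {w | f w ≠ w} = Set.univ := by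
    ext x
    exact ⟨fun _ => Set.mem_univ _, fun _ => hne x⟩
  rw [h4, Set.ncard_univ, Nat.card_eq_fintype_card, Fintype.card_fin] at h3
  have h5 := h.2 K hK1
  omega

theorem perf_iff (hf : IsM (hg G t).Adj f) (hM : Is M f) :
    (∀ x, ∃ y, ((augG n G)^[k] (dl M t)).Adj x y) ↔ HasPM G := by
  have h0 := dl_isMat hf hM
  obtain ⟨h1, h2⟩ := aug_it h0 k
  constructor
  · exact hasPM_of_covers h1
  · intro hG
    apply covers_of_card h1
    rcases h2 with h2 | h2
    · exact card_of_hasPM h2 hG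
    · have := dl_card hf hM
      omega

theorem T2_iff : T2 c k n G ↔ T1 c k n G ∧ HasPM G := by
  constructor
  · rintro ⟨p, h1, h2, h3, h4⟩
    obtain ⟨f, hf, hM⟩ := p_spec h2
    exact ⟨⟨p, h1, h2, h3⟩, (perf_iff hf hM).1 h4⟩
  · rintro ⟨⟨p, h1, h2, h3⟩, hG⟩
    obtain ⟨f, hf, hM⟩ := p_spec h2
    exact ⟨p, h1, h2, h3, (perf_iff hf hM).2 hG⟩

end Pool.Agent.LF
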