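import Mathlib
import Pool.Agent.Lib.MP_0087d5_lc.WMain

set_option autoImplicit false
set_option linter.all false

/-!
# Locally few perfect matchings: isolation
-/

namespace Pool.Agent.LF

open Relation Pool.Agent.PMNC

variable {n : ℕ} {A : Fin n → Fin n → Prop} {f g h : Fin n → Fin n} {x y z : Fin n}

/-- `x` and `y` are matched by some perfect matching -/
def al (A : Fin n → Fin n → Prop) (x y : Fin n) : Prop := ∃ f, IsM A f ∧ f x = y

theorem al_symm (h : al A x y) : al A y x := by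
  obtain ⟨f, hf, rfl⟩ := h
  exact ⟨f, hf, hf.1 x⟩

/-- same component of the graph of the allowed edges -/
def cmp (A : Fin n → Fin n → Prop) : Fin n → Fin n → Prop := ReflTransGen (al A)

theorem cmp_symm (h : cmp A x y) : cmp A y x := by
  induction h with
  | refl => exact ReflTransGen.refl
  | tail _ h ih => exact ReflTransGen.head (al_symm h) ih

theorem cmp_trans (h : cmp A x y) (h' : cmp A y z) : cmp A x z := ReflTransGen.trans h h'

theorem cmp_mate (hf : IsM A f) (h : cmp A x y) : cmp A x (f y) :=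
  ReflTransGen.tail h ⟨f, hf, rfl⟩

theorem cmp_mate_iff (hf : IsM A f) : cmp A x (f y) ↔ cmp A x y :=
  ⟨fun h => by have := cmp_mate hf h; rwa [hf.1] at this, cmp_mate hf⟩

open Classical in
/-- `f` is replaced by `g` on the component of `x` -/
noncomputable def mix (A : Fin n → Fin n → Prop) (x : Fin n) (f g : Fin n → Fin n) (v : Fin n) : Fin n :=
  if cmp A x v then g v else f v

theorem mix_pos (h : cmp A x y) : mix A x f g y = g y := if_pos h

theorem mix_neg (h : ¬ cmp A x y) : mix A x f g y = f y := if_neg h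

theorem mix_isM (hf : IsM A f) (hg : IsM A g) : IsM A (mix A x f g) := by
  constructor
  · intro v
    by_cases h : cmp A x v
    · rw [mix_pos h, mix_pos (cmp_mate hg h), hg.1]
    · rw [mix_neg h, mix_neg (fun h' => h ((cmp_mate_iff hf).1 h')), hf.1]
  · intro v
    by_cases h : cmp A x v
    · rw [mix_pos h]
      exact hg.2 v
    · rw [mix_neg h]
      exact hf.2 v

/-- the perfect matchings that agree with `f` outside the component of `x` -/
def Loc (A : Fin n → Fin n → Prop) (f : Fin n → Fin n) (x : Fin n) : Type :=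
  {g : Fin n → Fin n // IsM A g ∧ ∀ v, ¬ cmp A x v → g v = f v}

noncomputable instance : Fintype (Loc A f x) := by
  classical
  exact inferInstanceAs (Fintype {g : Fin n → Fin n // IsM A g ∧ ∀ v, ¬ cmp A x v → g v = f v})

theorem loc_card (hf : IsM A f) (hg : IsM A g) : Nat.card (Loc A f x) = Nat.card (Loc A g x) := by
  refine Nat.card_congr ⟨fun h => ⟨mix A x g h.1, mix_isM hg h.2.1, fun v hv => mix_neg hv⟩,
    fun h => ⟨mix A x f h.1, mix_isM hf h.2.1, fun v hv => mix_neg hv⟩, ?_, ?_⟩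
  · rintro ⟨h, h1, h2⟩
    apply Subtype.ext
    funext v
    by_cases hv : cmp A x v
    · simp only [mix_pos hv]
    · simp only [mix_neg hv]
      exact (h2 v hv).symm
  · rintro ⟨h, h1, h2⟩
    apply Subtype.ext
    funext v
    by_cases hv : cmp A x v
    · simp only [mix_pos hv]
    · simp only [mix_neg hv]
      exact (h2 v hv).symm

/-- the graph has a perfect matching, and at most `N` in each component of allowed edges -/
def lf (A : Fin n → Fin n → Prop) (N : ℕ) : Prop :=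
  ∃ f, IsM A f ∧ ∀ x, Nat.card (Loc A f x) ≤ N

theorem lf_iff (hf : IsM A f) {N : ℕ} : lf A N ↔ ∀ x, Nat.card (Loc A f x) ≤ N := by
  constructor
  · rintro ⟨g, hg, h⟩ x
    rw [loc_card hf hg]
    exact h x
  · exact fun h => ⟨f, hf, h⟩

theorem tw_mix (w : Fin n → Fin n → ℕ) (x : Fin n) (f g : Fin n → Fin n) :
    tw w (mix A x f g) + tw w (mix A x g f) = tw w f + tw w g := by
  unfold tw
  rw [← Finset.sum_add_distrib, ← Finset.sum_add_distrib]
  refine Finset.sum_congr rfl fun v _ => ?_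
  by_cases hv : cmp A x v
  · rw [mix_pos hv, mix_pos hv, add_comm]
  · rw [mix_neg hv, mix_neg hv]

theorem bn_mix {f₀ : Fin n → Fin n} (h : ∀ v, ¬ cmp A x v → f v = g v) :
    bn f + bn (mix A x f₀ g) = bn g + bn (mix A x f₀ f) := by
  unfold bn
  rw [← Finset.sum_add_distrib, ← Finset.sum_add_distrib]
  refine Finset.sum_congr rfl fun v _ => ?_
  by_cases hv : cmp A x v
  · rw [mix_pos hv, mix_pos hv, add_comm]
  · rw [mix_neg hv, mix_neg hv, h v hv]

theorem exists_mod (hi : ∀ x, ¬ A x x) {f₀ : Fin n → Fin n} (hf₀ : IsM A f₀) {N : ℕ}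
    (hN : ∀ x, Nat.card (Loc A f₀ x) ≤ N) :
    ∃ m, 2 ≤ m ∧ m ≤ 2 * ((n ^ 2 + n) * (n * (N * N)) + 4) ∧
      ∀ x f g, IsM A f → IsM A g → (∀ v, ¬ cmp A x v → f v = g v) → tw (wE m) f = tw (wE m) g →
        f = g := by
  classical
  have hne : ∀ f, IsM A f → ∀ v, f v ≠ v := by
    intro f hf v h
    have := hf.2 v
    rw [h] at this
    exact hi v this
  let ι := Σ x : Fin n, Loc A f₀ x × Loc A f₀ x
  let d : ι → ℕ := fun p => (bn p.2.1.1 - bn p.2.2.1) + (bn p.2.2.1 - bn p.2.1.1)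
  let T : Finset ι := Finset.univ.filter fun p => p.2.1 ≠ p.2.2
  have hd : ∀ p ∈ T, d p ≠ 0 := by
    intro p hp h
    rw [Finset.mem_filter] at hp
    apply hp.2
    apply Subtype.ext
    apply bn_inj p.2.1.2.1.1 (hne _ p.2.1.2.1) p.2.2.2.1.1 (hne _ p.2.2.2.1)
    change (bn p.2.1.1 - bn p.2.2.1) + (bn p.2.2.1 - bn p.2.1.1) = 0 at h
    omega
  have hle : ∀ p ∈ T, d p ≤ 2 ^ (n ^ 2 + n) := by
    intro p _
    have h1 := bn_le p.2.1.1
    have h2 := bn_le p.2.2.1
    change (bn p.2.1.1 - bn p.2.2.1) + (bn p.2.2.1 - bn p.2.1.1) ≤ _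
    omega
  have hcard : T.card ≤ n * (N * N) := by
    refine (Finset.card_filter_le _ _).trans ?_
    rw [Finset.card_univ, Fintype.card_sigma]
    calc ∑ x, Fintype.card (Loc A f₀ x × Loc A f₀ x) ≤ ∑ _x : Fin n, N * N := by
          refine Finset.sum_le_sum fun x _ => ?_
          rw [Fintype.card_prod]
          have := hN x
          rw [Nat.card_eq_fintype_card] at this
          exact Nat.mul_le_mul this this
      _ = n * (N * N) := by simp
  have hD : ∏ p ∈ T, d p ≠ 0 := Finset.prod_ne_zero_iff.2 hd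
  have hDL : ∏ p ∈ T, d p ≤ 2 ^ ((n ^ 2 + n) * (n * (N * N))) := by
    refine (Finset.prod_le_pow_card _ _ _ hle).trans ?_
    rw [← pow_mul]
    exact Nat.pow_le_pow_right (by norm_num) (Nat.mul_le_mul_left _ hcard)
  obtain ⟨m, h1, h2, h3⟩ := exists_not_dvd hD hDL
  refine ⟨m, h1, h2, fun x f g hf hg hfg hw => ?_⟩
  have e : ∀ f : Fin n → Fin n, tw (wE m) f % m = bn f % m := by
    intro f
    unfold tw bn wE
    simp only [if_pos h1]
    rw [Finset.sum_nat_mod Finset.univ m (fun i => 2 ^ eid i (f i))]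
  have hb : bn f % m = bn g % m := by rw [← e, ← e, hw]
  let f' : Loc A f₀ x := ⟨mix A x f₀ f, mix_isM hf₀ hf, fun v hv => mix_neg hv⟩
  let g' : Loc A f₀ x := ⟨mix A x f₀ g, mix_isM hf₀ hg, fun v hv => mix_neg hv⟩
  by_contra hne'
  have hfg' : f' ≠ g' := by
    intro h
    apply hne'
    have h' : mix A x f₀ f = mix A x f₀ g := congrArg Subtype.val h
    funext v
    by_cases hv : cmp A x v
    · have := congrFun h' v
      rwa [mix_pos hv, mix_pos hv] at this
    · exact hfg v hv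
  apply h3
  refine dvd_trans ?_ (Finset.dvd_prod_of_mem d
    (Finset.mem_filter.2 ⟨Finset.mem_univ (⟨x, f', g'⟩ : ι), hfg'⟩))
  change m ∣ (bn (mix A x f₀ f) - bn (mix A x f₀ g)) + (bn (mix A x f₀ g) - bn (mix A x f₀ f))
  have hm : bn f + bn (mix A x f₀ g) = bn g + bn (mix A x f₀ f) := bn_mix hfg
  have hb' : bn (mix A x f₀ f) ≡ bn (mix A x f₀ g) [MOD m] := by
    have h4 : bn f ≡ bn g [MOD m] := hb
    have h5 : bn g + bn (mix A x f₀ f) ≡ bn g + bn (mix A x f₀ g) [MOD m] := by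
      rw [← hm]
      exact h4.add_right _
    exact Nat.ModEq.add_left_cancel' _ h5
  rcases le_total (bn (mix A x f₀ f)) (bn (mix A x f₀ g)) with h | h
  · rw [show bn (mix A x f₀ f) - bn (mix A x f₀ g) = 0 by omega, zero_add]
    exact (Nat.modEq_iff_dvd' h).1 hb'
  · rw [show bn (mix A x f₀ g) - bn (mix A x f₀ f) = 0 by omega, add_zero]
    exact (Nat.modEq_iff_dvd' h).1 hb'.symm

theorem exists_min {w : Fin n → Fin n → ℕ} {f₀ : Fin n → Fin n} (hf₀ : IsM A f₀)
    (hw : ∀ x f g, IsM A f → IsM A g → (∀ v, ¬ cmp A x v → f v = g v) → tw w f = tw w g → f = g) :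
    ∃ f, IsM A f ∧ ∀ g, IsM A g → tw w g = tw w f → g = f := by
  classical
  obtain ⟨f, hf, hmin⟩ := Set.exists_min_image {f : Fin n → Fin n | IsM A f} (tw w)
    (Set.toFinite _) ⟨f₀, hf₀⟩
  refine ⟨f, hf, fun g hg hgw => ?_⟩
  funext x
  have h1 : IsM A (mix A x f g) := mix_isM hf hg
  have h2 : IsM A (mix A x g f) := mix_isM hg hf
  have h3 := hmin _ h1
  have h4 := hmin _ h2
  have h5 := tw_mix (A := A) w x f g
  have h6 : tw w (mix A x f g) = tw w f := by omega
  have h7 := hw x _ _ h1 hf (fun v hv => mix_neg hv) h6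
  have h8 := congrFun h7 x
  rwa [mix_pos ReflTransGen.refl] at h8

theorem bound2 {n c K : ℕ} (hn : 2 ≤ n) (hK : K = 2 * c + 8) :
    n * (2 * ((n ^ 2 + n) * (n * (n ^ c * n ^ c)) + 4)) < n ^ K := by
  subst hK
  have e : n ^ (2 * c + 8) = n ^ 7 * (n * (n ^ c * n ^ c)) := by ring
  rw [e]
  have h1 : 1 ≤ n * (n ^ c * n ^ c) := Nat.one_le_iff_ne_zero.2 (by positivity)
  generalize n * (n ^ c * n ^ c) = t at h1 ⊢
  have h2 : n * (2 * ((n ^ 2 + n) * t + 4)) ≤ n * (2 * ((n ^ 2 + n + 4) * t)) := by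
    apply Nat.mul_le_mul_left
    apply Nat.mul_le_mul_left
    nlinarith
  have h3 : n ^ 2 + n + 4 ≤ n ^ 4 := by nlinarith [pow_two n, mul_self_nonneg (n - 2 : ℤ), sq_nonneg (n ^ 2 : ℕ), show n ^ 4 = n ^ 2 * n ^ 2 by ring, show 4 ≤ n ^ 2 by nlinarith]
  have h4 : n * (2 * ((n ^ 2 + n + 4) * t)) ≤ n * (n * (n ^ 4 * t)) := by
    apply Nat.mul_le_mul_left
    exact Nat.mul_le_mul hn (Nat.mul_le_mul_right _ h3)
  have h5 : n * (n * (n ^ 4 * t)) = n ^ 6 * t := by ring
  have h6 : n ^ 6 * t < n ^ 7 * t := by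
    apply Nat.mul_lt_mul_of_pos_right _ h1
    exact Nat.pow_lt_pow_right (by omega) (by omega)
  omega

/-- isolation: some perfect matching is found by the candidates -/
theorem exists_cM {S : ℕ → Type} [Env S] {c : ℕ} (hS : dim S = 2 * c + 8) (hn : 2 ≤ n)
    (G : SimpleGraph (Fin n)) (h : lf G.Adj (n ^ c)) :
    ∃ (m a : S n) (f : Fin n → Fin n), IsM G.Adj f ∧ ∀ x y, cM G m a x y ↔ y = f x := by
  obtain ⟨f₀, hf₀, hN⟩ := h
  obtain ⟨N, rfl⟩ : ∃ N, n = N + 1 := ⟨n - 1, by omega⟩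
  obtain ⟨m₀, h3, h4, h5⟩ := exists_mod (A := G.Adj) (fun x => G.irrefl) hf₀ hN
  have hb := bound2 (c := c) hn hS.symm.symm
  obtain ⟨m, hm⟩ := nv_surj (S := S) (n := N + 1) (m := m₀) (by
    refine lt_of_le_of_lt ?_ hb
    refine h4.trans ?_
    exact Nat.le_mul_of_pos_left _ (by omega))
  obtain ⟨f, hf, hu⟩ := exists_min hf₀ h5
  have h6 : tw (wE m₀) f < (N + 1) ^ dim S := by
    refine lt_of_le_of_lt ?_ hb
    unfold tw
    calc ∑ i, wE m₀ i (f i) ≤ ∑ _i : Fin (N + 1), m₀ :=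
          Finset.sum_le_sum fun i _ => by
            unfold wE
            rw [if_pos h3]
            exact (Nat.mod_lt _ (by omega)).le
      _ = (N + 1) * m₀ := by simp
      _ ≤ _ := Nat.mul_le_mul_left _ h4
  obtain ⟨a, ha⟩ := nv_surj (S := S) (n := N + 1) h6
  refine ⟨m, a, f, hf, fun x y => ?_⟩
  unfold cM
  rw [hm]
  exact cnW_iff dn_nv (fun x y h => h.symm) (fun x => G.irrefl) (wE_comm m₀) hf ha.symm
    (fun g hg hg' => hu g hg (by rw [hg', ha]))

end Pool.Agent.LF
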