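import Pool.Agent.Lib.MP_0087d5_lc.WBridge

/-!
# Programs evaluated on an input that depends on parameters
-/

namespace Pool.Agent.LF

open Pool.Agent.UPM

private theorem param_gen {S : ℕ → Type} {B : Readers S} {ι : Type} {F : RF S ι}
    (h : NCP S B ι F) :
    ∀ (S' : ℕ → Type) (B' : Readers S') (π : Type) (_ : Finite π)
      (f : ∀ n, S' n → (π → Fin n) → S n),
      (∀ (ι : Type) (_ : Finite ι) (P : RF S ι), B ι P → NCP S' B' (π ⊕ ι)
        (fun n s z => P n (f n s (fun i => z (Sum.inl i))) (fun i => z (Sum.inr i)))) →
      NCP S' B' (π ⊕ ι)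
        (fun n s z => F n (f n s (fun i => z (Sum.inl i))) (fun i => z (Sum.inr i))) := by
  induction h with
  | base hι hP => exact fun S' B' π hπ f hB => hB _ hι _ hP
  | comap hκ e h ih =>
    intro S' B' π hπ f hB
    exact NCP.comap (κ := π ⊕ _) inferInstance (Sum.map id e) (ih S' B' π hπ f hB)
  | le hι i j => exact fun S' B' π hπ f hB => NCP.le inferInstance (Sum.inr i) (Sum.inr j)
  | add hι i j k =>
    exact fun S' B' π hπ f hB => NCP.add inferInstance (Sum.inr i) (Sum.inr j) (Sum.inr k)
  | not _ ih => exact fun S' B' π hπ f hB => NCP.not (ih S' B' π hπ f hB)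
  | and _ _ ih₁ ih₂ =>
    exact fun S' B' π hπ f hB => NCP.and (ih₁ S' B' π hπ f hB) (ih₂ S' B' π hπ f hB)
  | @ex S B ι P h ih =>
    intro S' B' π hπ f hB
    have hfin : Finite (Option ι) := h.finite
    have hfin' : Finite ι := Finite.of_injective (some : ι → Option ι) (Option.some_injective ι)
    have h1 := NCP.comap (κ := Option (π ⊕ ι)) inferInstance
      (fun o : π ⊕ Option ι => match o with
        | Sum.inl i => some (Sum.inl i)
        | Sum.inr none => none
        | Sum.inr (some j) => some (Sum.inr j)) (ih S' B' π hπ f hB)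
    refine (NCP.ex h1).congr fun n s z => ?_
    apply exists_congr
    intro a
    have e : (fun o : Option ι => (fun o' : Option (π ⊕ ι) => o'.elim a z)
        ((fun o : π ⊕ Option ι => match o with
          | Sum.inl i => some (Sum.inl i)
          | Sum.inr none => none
          | Sum.inr (some j) => some (Sum.inr j)) (Sum.inr o))) =
        fun o : Option ι => o.elim a (fun i => z (Sum.inr i)) := by
      funext o
      cases o <;> rfl
    rw [← e]
    exact Iff.rfl
  | @iter S B κ Fl hFl H F hH hF g ihH ihF =>
    intro S' B' π hπ f hB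
    have hκ : Finite κ := (hH g).finite
    have h1 := NCP.iter (S := S') (B := B') (κ := π ⊕ κ) (Fl := Fl) hFl
      (H := fun g n s z => H g n (f n s (fun i => z (Sum.inl i))) (fun i => z (Sum.inr i)))
      (F := fun g n s z => F g n (f n s.1 (fun i => z (Sum.inl i)),
        fun g' y => s.2 g' (Sum.elim (fun i => z (Sum.inl i)) y)) (fun i => z (Sum.inr i)))
      (fun g => ihH g S' B' π hπ f hB) (fun g => by
        refine ihF g (fun n => S' n × RelF (π ⊕ κ) Fl n) (Ext B' (π ⊕ κ) Fl) π hπ
          (fun n s p => (f n s.1 p, fun g' y => s.2 g' (Sum.elim p y))) ?_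
        intro ι' hι' P hP
        cases hP with
        | old hP' => exact Pool.Agent.PMNC.Br.ncp_weaken (hB _ hι' _ hP')
        | new g' =>
          have h2 : NCP (fun n => S' n × RelF (π ⊕ κ) Fl n) (Ext B' (π ⊕ κ) Fl) (π ⊕ κ)
              (fun _ s z => s.2 g' z) := NCP.base inferInstance (Ext.new g')
          refine h2.congr fun n s z => ?_
          have e : Sum.elim (fun i => z (Sum.inl i)) (fun i => z (Sum.inr i)) = z := by
            funext o
            cases o <;> rfl
          show s.2 g' z ↔ s.2 g' (Sum.elim (fun i => z (Sum.inl i)) (fun i => z (Sum.inr i)))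
          rw [e]) g
    refine h1.congr fun n s z => ?_
    have key : ∀ j : ℕ, ∀ (g : Fl) (x : κ → Fin n),
        ((fun (R : RelF (π ⊕ κ) Fl n) (g : Fl) (z : π ⊕ κ → Fin n) =>
          F g n (f n s (fun i => z (Sum.inl i)),
            fun g' y => R g' (Sum.elim (fun i => z (Sum.inl i)) y)) (fun i => z (Sum.inr i)))^[j]
          (fun g z => H g n (f n s (fun i => z (Sum.inl i))) (fun i => z (Sum.inr i)))) g
          (Sum.elim (fun i => z (Sum.inl i)) x) =
        ((fun (R : RelF κ Fl n) (g : Fl) (x : κ → Fin n) =>
          F g n (f n s (fun i => z (Sum.inl i)), R) x)^[j]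
          (fun g x => H g n (f n s (fun i => z (Sum.inl i))) x)) g x := by
      intro j
      induction j with
      | zero => intro g x; rfl
      | succ j ihj =>
        intro g x
        rw [Function.iterate_succ_apply', Function.iterate_succ_apply']
        simp only [Sum.elim_inl, Sum.elim_inr]
        have e : (fun (g' : Fl) (y : κ → Fin n) =>
            ((fun (R : RelF (π ⊕ κ) Fl n) (g : Fl) (z : π ⊕ κ → Fin n) =>
              F g n (f n s (fun i => z (Sum.inl i)),
                fun g' y => R g' (Sum.elim (fun i => z (Sum.inl i)) y))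
                  (fun i => z (Sum.inr i)))^[j]
              (fun g z => H g n (f n s (fun i => z (Sum.inl i))) (fun i => z (Sum.inr i)))) g'
              (Sum.elim (fun i => z (Sum.inl i)) y)) =
            ((fun (R : RelF κ Fl n) (g : Fl) (x : κ → Fin n) =>
              F g n (f n s (fun i => z (Sum.inl i)), R) x)^[j]
              (fun g x => H g n (f n s (fun i => z (Sum.inl i))) x)) := by
          funext g' y
          exact ihj g' y
        rw [e]
    have e : Sum.elim (fun i => z (Sum.inl i)) (fun i => z (Sum.inr i)) = z := by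
      funext o
      cases o <;> rfl
    have := key (Nat.size (n - 1)) g (fun i => z (Sum.inr i))
    rw [e] at this
    exact iff_of_eq this

/-- Change of the input, where the new input depends on parameters. -/
theorem param {S : ℕ → Type} {B : Readers S} {ι : Type} {F : RF S ι} (h : NCP S B ι F)
    {S' : ℕ → Type} {B' : Readers S'} {π : Type} (hπ : Finite π)
    (f : ∀ n, S' n → (π → Fin n) → S n)
    (hB : ∀ (ι : Type) (_ : Finite ι) (P : RF S ι), B ι P → NCP S' B' (π ⊕ ι)
        (fun n s z => P n (f n s (fun i => z (Sum.inl i))) (fun i => z (Sum.inr i)))) :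
    NCP S' B' (π ⊕ ι)
      (fun n s z => F n (f n s (fun i => z (Sum.inl i))) (fun i => z (Sum.inr i))) :=
  param_gen h S' B' π hπ f hB

/-- Existential quantification over tuples. -/
theorem exTuple {S : ℕ → Type} {B : Readers S} (κ : Type) [Finite κ] : ∀ (ι : Type) (P : RF S (ι ⊕ κ)),
    NCP S B (ι ⊕ κ) P → NCP S B ι (fun n s x => ∃ y : κ → Fin n, P n s (Sum.elim x y)) := by
  classical
  refine Finite.induction_empty_option (P := fun κ => ∀ (ι : Type) (P : RF S (ι ⊕ κ)),
    NCP S B (ι ⊕ κ) P → NCP S B ι (fun n s x => ∃ y : κ → Fin n, P n s (Sum.elim x y))) ?_ ?_ ?_ κ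
  · intro α β e ih ι P h
    have hf : Finite (ι ⊕ β) := h.finite
    have hfβ : Finite β := Finite.of_injective (Sum.inr : β → ι ⊕ β) Sum.inr_injective
    have hfι : Finite ι := Finite.of_injective (Sum.inl : ι → ι ⊕ β) Sum.inl_injective
    have hfα : Finite α := Finite.of_equiv β e.symm
    have h1 := ih ι _ (NCP.comap (κ := ι ⊕ α) inferInstance (Sum.map id e.symm) h)
    refine h1.congr fun n s x => ?_
    constructor
    · rintro ⟨y, hy⟩
      refine ⟨fun b => y (e.symm b), ?_⟩
      have e1 : (fun i => Sum.elim x y (Sum.map id e.symm i)) =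
          Sum.elim x (fun b => y (e.symm b)) := by
        funext i
        cases i <;> rfl
      rw [e1] at hy
      exact hy
    · rintro ⟨y, hy⟩
      refine ⟨fun a => y (e a), ?_⟩
      have e1 : (fun i => Sum.elim x (fun a => y (e a)) (Sum.map id e.symm i)) =
          Sum.elim x y := by
        funext i
        cases i with
        | inl i => rfl
        | inr b => simp
      rw [e1]
      exact hy
  · intro ι P h
    have hf : Finite (ι ⊕ PEmpty) := h.finite
    have hfι : Finite ι := Finite.of_injective (Sum.inl : ι → ι ⊕ PEmpty) Sum.inl_injective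
    have h1 := NCP.comap (κ := ι) hfι (Sum.elim id (fun p : PEmpty => p.elim)) h
    refine h1.congr fun n s x => ?_
    have e1 : ∀ y : PEmpty → Fin n, (fun o : ι ⊕ PEmpty =>
        x (Sum.elim id (fun p : PEmpty => p.elim) o)) = Sum.elim x y := by
      intro y
      funext o
      rcases o with i | p
      · rfl
      · exact p.elim
    constructor
    · intro hx
      refine ⟨fun p => p.elim, ?_⟩
      rw [← e1]
      exact hx
    · rintro ⟨y, hy⟩
      rw [e1 y]
      exact hy
  · intro α _ ih ι P h
    have hf : Finite (ι ⊕ Option α) := h.finite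
    have hfα : Finite (Option α) := Finite.of_injective (Sum.inr : Option α → ι ⊕ Option α) Sum.inr_injective
    have hfα' : Finite α := Finite.of_injective (some : α → Option α) (Option.some_injective α)
    have hfι : Finite ι := Finite.of_injective (Sum.inl : ι → ι ⊕ Option α) Sum.inl_injective
    have h1 := NCP.comap (κ := (Option ι) ⊕ α) inferInstance (fun o : ι ⊕ Option α => match o with
      | Sum.inl i => Sum.inl (some i)
      | Sum.inr none => Sum.inl none
      | Sum.inr (some a) => Sum.inr a) h
    have h2 := NCP.ex (ih (Option ι) _ h1)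
    refine h2.congr fun n s x => ?_
    have e1 : ∀ (a : Fin n) (y : α → Fin n), (fun o : ι ⊕ Option α =>
        Sum.elim (fun o' : Option ι => o'.elim a x) y (match o with
          | Sum.inl i => Sum.inl (some i)
          | Sum.inr none => Sum.inl none
          | Sum.inr (some a) => Sum.inr a)) = Sum.elim x (fun o => o.elim a y) := by
      intro a y
      funext o
      rcases o with i | (_ | b) <;> rfl
    constructor
    · rintro ⟨a, y, hy⟩
      refine ⟨fun o => o.elim a y, ?_⟩
      rw [← e1]
      exact hy
    · rintro ⟨y, hy⟩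
      refine ⟨y none, fun a => y (some a), ?_⟩
      have e2 : y = fun o => o.elim (y none) (fun a => y (some a)) := by
        funext o
        cases o <;> rfl
      rw [e2, ← e1] at hy
      exact hy

end Pool.Agent.LF
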