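import Pool.Agent.Lib.MP_0087d5_lc.LF.Rest

set_option autoImplicit false
set_option linter.all false

/-!
# Deleting few vertices: programs
-/

namespace Pool.Agent.LF

open Relation Pool.Agent.PMNC Pool.Agent.UPM Pool.Agent.AUG

/-- indices of `k` pairs -/
abbrev TT (k : ℕ) : Type := Fin k × Bool

/-- without the vertices in the range of `t`, except for the edges that join the two members of
a pair -/
def hg {k n : ℕ} (G : SimpleGraph (Fin n)) (t : TT k → Fin n) : SimpleGraph (Fin n) where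
  Adj x y := (G.Adj x y ∧ (∀ p, t p ≠ x) ∧ ∀ p, t p ≠ y) ∨
    (x ≠ y ∧ ∃ p : TT k, t p = x ∧ t (p.1, !p.2) = y)
  symm := ⟨fun x y h => by
    rcases h with h | ⟨h1, p, h2, h3⟩
    · exact Or.inl ⟨h.1.symm, h.2.2, h.2.1⟩
    · exact Or.inr ⟨h1.symm, (p.1, !p.2), h3, by simpa using h2⟩⟩
  loopless := ⟨fun x h => by
    rcases h with h | h
    · exact h.1.ne rfl
    · exact h.1 rfl⟩

/-- without the vertices in the range of `t` -/
def dl {k n : ℕ} (M : SimpleGraph (Fin n)) (t : TT k → Fin n) : SimpleGraph (Fin n) where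
  Adj x y := M.Adj x y ∧ (∀ p, t p ≠ x) ∧ ∀ p, t p ≠ y
  symm := ⟨fun x y h => ⟨h.1.symm, h.2.2, h.2.1⟩⟩
  loopless := ⟨fun x h => h.1.ne rfl⟩

/-- the numbers below `n ^ (2 * c + 8)` -/
abbrev Sc (c : ℕ) : ℕ → Type := fun n => Fin (2 * c + 8) → Fin n

theorem dim_Sc (c : ℕ) : dim (Sc c) = 2 * c + 8 := Nat.mul_one _

/-- indices of the parameters -/
abbrev PP (c k : ℕ) : Type := TT k ⊕ (Fin (dim (Sc c)) ⊕ Fin (dim (Sc c)))

section
variable {c k n : ℕ}

/-- the pairs -/
def pT (p : PP c k → Fin n) : TT k → Fin n := fun i => p (Sum.inl i)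

/-- the modulus -/
noncomputable def pm (p : PP c k → Fin n) : Sc c n :=
  (vec (E := Sc c) n).symm (fun i => p (Sum.inr (Sum.inl i)))

/-- the weight -/
noncomputable def pa (p : PP c k → Fin n) : Sc c n :=
  (vec (E := Sc c) n).symm (fun i => p (Sum.inr (Sum.inr i)))

/-- the candidate -/
def cMp (G : SimpleGraph (Fin n)) (p : PP c k → Fin n) (x y : Fin n) : Prop :=
  cM (hg G (pT p)) (pm p) (pa p) x y

/-- the candidate as a graph -/
def mgp (G : SimpleGraph (Fin n)) (p : PP c k → Fin n) : SimpleGraph (Fin n) :=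
  SimpleGraph.fromRel (cMp G p)

/-- the new graph with the candidate -/
def st1 (c k n : ℕ) (G : GS n) (p : PP c k → Fin n) : GS2 n := (hg G (pT p), mgp G p)

/-- the graph with the candidate -/
def st2 (c k n : ℕ) (G : GS n) (p : PP c k → Fin n) : GS2 n := (G, dl (mgp G p) (pT p))

end

theorem q_out (k : ℕ) {ι : Type} (hι : Finite ι) (e : TT k → ι) (i : ι) :
    NCP GS GB ι (fun n G z => ∀ p, z (e p) ≠ z i) := by
  refine NCP.allFin (J := TT k) hι fun p => ?_
  exact NCP.not (NCP.eq hι (e p) i)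

theorem q_hg (k : ℕ) : NCP GS GB (TT k ⊕ Fin 2) (fun n G z =>
    (hg G (fun p => z (Sum.inl p))).Adj (z (Sum.inr 0)) (z (Sum.inr 1))) := by
  have h1 : NCP GS GB (TT k ⊕ Fin 2) (fun n G z => G.Adj (z (Sum.inr 0)) (z (Sum.inr 1))) :=
    NCP.comap inferInstance ![Sum.inr 0, Sum.inr 1] (NCP.base inferInstance GB.adj)
  have h2 := q_out k (ι := TT k ⊕ Fin 2) inferInstance Sum.inl (Sum.inr 0)
  have h3 := q_out k (ι := TT k ⊕ Fin 2) inferInstance Sum.inl (Sum.inr 1)
  have h4 : NCP GS GB (TT k ⊕ Fin 2) (fun n G z => ∃ p : TT k, z (Sum.inl p) = z (Sum.inr 0) ∧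
      z (Sum.inl (p.1, !p.2)) = z (Sum.inr 1)) := by
    refine NCP.exFin (J := TT k) inferInstance fun p => ?_
    exact NCP.and (NCP.eq inferInstance _ _) (NCP.eq inferInstance _ _)
  exact (NCP.or (NCP.and h1 (NCP.and h2 h3)) (NCP.and (NCP.not (NCP.eq inferInstance (Sum.inr 0)
    (Sum.inr 1))) h4)).congr fun n G z => Iff.rfl

/-- formulas for the new graph -/
theorem q_hgP {E : ℕ → Type} [Env E] {P : ∀ n, SimpleGraph (Fin n) → E n → Prop} (k : ℕ)
    (h : DefP (fun n G X x => P n G x)) :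
    NCP GS GB (TT k ⊕ Fin (dim E)) (fun n G z =>
      P n (hg G (fun p => z (Sum.inl p))) ((vec n).symm (fun i => z (Sum.inr i)))) := by
  refine param (S' := GS) (B' := GB) (π := TT k) (ncp_of_defP h) inferInstance
    (fun n G t => hg G t) ?_
  intro ι hι P hP
  cases hP with
  | adj => exact q_hg k

theorem split {S : ℕ → Type} {B : Readers S} {κ : Type} [Finite κ] {E F : ℕ → Type} [Env E] [Env F]
    {P : ∀ n, S n → (κ → Fin n) → E n × F n → Prop}
    (h : NCP S B (κ ⊕ Fin (dim (fun n => E n × F n))) (fun n s z => P n s (fun i => z (Sum.inl i))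
      ((vec (E := fun n => E n × F n) n).symm (fun i => z (Sum.inr i))))) :
    NCP S B ((κ ⊕ Fin (dim E)) ⊕ Fin (dim F)) (fun n s z => P n s (fun i => z (Sum.inl (Sum.inl i)))
      ((vec (E := E) n).symm (fun i => z (Sum.inl (Sum.inr i))),
        (vec (E := F) n).symm (fun i => z (Sum.inr i)))) := by
  let e : κ ⊕ Fin (dim E + dim F) → (κ ⊕ Fin (dim E)) ⊕ Fin (dim F) :=
    Sum.elim (fun i => Sum.inl (Sum.inl i))
      (Fin.addCases (motive := fun _ => (κ ⊕ Fin (dim E)) ⊕ Fin (dim F))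
        (fun i => Sum.inl (Sum.inr i)) (fun i => Sum.inr i))
  refine (NCP.comap (κ := (κ ⊕ Fin (dim E)) ⊕ Fin (dim F)) inferInstance e h).congr fun n s z => ?_
  have e1 : (vec (E := fun n => E n × F n) n).symm (fun i => z (e (Sum.inr i))) =
      ((vec (E := E) n).symm (fun i => z (Sum.inl (Sum.inr i))),
        (vec (E := F) n).symm (fun i => z (Sum.inr i))) := by
    rw [Equiv.symm_apply_eq, vec_pair, Equiv.apply_symm_apply, Equiv.apply_symm_apply]
    funext i
    change Fin (dim E + dim F) at i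
    refine Fin.addCases (fun j => ?_) (fun j => ?_) i
    · have e2 : e (Sum.inr (Fin.castAdd (dim F) j)) = Sum.inl (Sum.inr j) :=
        Fin.addCases_left (motive := fun _ => (κ ⊕ Fin (dim E)) ⊕ Fin (dim F))
          (left := fun i => Sum.inl (Sum.inr i)) (right := fun i => Sum.inr i) j
      rw [Fin.append_left, e2]
    · have e2 : e (Sum.inr (Fin.natAdd (dim E) j)) = Sum.inr j :=
        Fin.addCases_right (motive := fun _ => (κ ⊕ Fin (dim E)) ⊕ Fin (dim F))
          (left := fun i => Sum.inl (Sum.inr i)) (right := fun i => Sum.inr i) j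
      rw [Fin.append_right, e2]
  exact iff_of_eq (congrArg (P n s (fun i => z (Sum.inl (Sum.inl i)))) e1)

theorem q_cMp (c k : ℕ) : NCP GS GB (PP c k ⊕ Fin 2) (fun n G z =>
    cMp (c := c) (k := k) G (fun i => z (Sum.inl i)) (z (Sum.inr 0)) (z (Sum.inr 1))) := by
  have h1 := q_hgP (E := fun n => Sc c n × (Sc c n × (Fin n × Fin n)))
    (P := fun n G y => cM G y.1 y.2.1 y.2.2.1 y.2.2.2) k
    (defP_cM (S := Sc c) (by rw [dim_Sc]; omega))
  have h2 := split (E := Sc c) (F := fun n => Sc c n × (Fin n × Fin n)) (P := fun n G t y =>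
    cM (hg G t) y.1 y.2.1 y.2.2.1 y.2.2.2) h1
  have h3 := split (E := Sc c) (F := fun n => Fin n × Fin n) (P := fun n G t y =>
    cM (hg G (fun p => t (Sum.inl p))) ((vec (E := Sc c) n).symm (fun i => t (Sum.inr i)))
      y.1 y.2.1 y.2.2) h2
  have h4 := split (E := fun n => Fin n) (F := fun n => Fin n) (P := fun n G t y =>
    cM (hg G (fun p => t (Sum.inl (Sum.inl p))))
      ((vec (E := Sc c) n).symm (fun i => t (Sum.inl (Sum.inr i))))
      ((vec (E := Sc c) n).symm (fun i => t (Sum.inr i))) y.1 y.2) h3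
  refine (NCP.comap (κ := PP c k ⊕ Fin 2) inferInstance
    (Sum.elim (Sum.elim (Sum.elim (Sum.elim (fun i => Sum.inl (Sum.inl i))
      (fun i => Sum.inl (Sum.inr (Sum.inl i)))) (fun i => Sum.inl (Sum.inr (Sum.inr i))))
      (fun _ => Sum.inr 0)) (fun _ => Sum.inr 1)) h4).congr fun n G z => Iff.rfl

theorem q_isPM (c k : ℕ) : NCP GS GB (PP c k) (fun n G p =>
    IsPM (hg G (pT p)) (cMp (c := c) (k := k) G p)) := by
  have h1 := q_hgP (E := fun n => Sc c n × Sc c n)
    (P := fun n G y => IsPM G (cM G y.1 y.2)) k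
    (defP_isPM (S := Sc c) (by rw [dim_Sc]; omega))
  have h2 := split (E := Sc c) (F := Sc c) (P := fun n G t y =>
    IsPM (hg G t) (cM (hg G t) y.1 y.2)) h1
  refine (NCP.comap (κ := PP c k) inferInstance
    (Sum.elim (Sum.elim (fun i => Sum.inl i) (fun i => Sum.inr (Sum.inl i)))
      (fun i => Sum.inr (Sum.inr i))) h2).congr fun n G z => Iff.rfl

theorem q_mgp (c k : ℕ) : NCP GS GB (PP c k ⊕ Fin 2) (fun n G z =>
    (mgp (c := c) (k := k) G (fun i => z (Sum.inl i))).Adj (z (Sum.inr 0)) (z (Sum.inr 1))) := by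
  have h := q_cMp c k
  have h' := NCP.comap (κ := PP c k ⊕ Fin 2) inferInstance
    (Sum.map id ![1, 0]) h
  refine (NCP.and (NCP.not (NCP.eq inferInstance (Sum.inr 0) (Sum.inr 1)))
    (NCP.or h h')).congr fun n G z => ?_
  unfold mgp
  rw [SimpleGraph.fromRel_adj]
  exact Iff.rfl

theorem q_st1 {c k : ℕ} {ι : Type} {F : RF GS2 ι} (h : NCP GS2 GB2 ι F) :
    NCP GS GB (PP c k ⊕ ι) (fun n G z => F n (st1 c k n G (fun i => z (Sum.inl i)))
      (fun i => z (Sum.inr i))) := by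
  refine param (S' := GS) (B' := GB) (π := PP c k) h inferInstance (st1 c k) ?_
  intro ι hι P hP
  cases hP with
  | fst =>
    exact NCP.comap (κ := PP c k ⊕ Fin 2) inferInstance (Sum.map Sum.inl id) (q_hg k)
  | snd => exact q_mgp c k

theorem q_st2 {c k : ℕ} {ι : Type} {F : RF GS2 ι} (h : NCP GS2 GB2 ι F) :
    NCP GS GB (PP c k ⊕ ι) (fun n G z => F n (st2 c k n G (fun i => z (Sum.inl i)))
      (fun i => z (Sum.inr i))) := by
  refine param (S' := GS) (B' := GB) (π := PP c k) h inferInstance (st2 c k) ?_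
  intro ι hι P hP
  cases hP with
  | fst =>
    exact NCP.comap (κ := PP c k ⊕ Fin 2) inferInstance ![Sum.inr 0, Sum.inr 1]
      (NCP.base inferInstance GB.adj)
  | snd =>
    exact (NCP.and (q_mgp c k) (NCP.and
      (q_out k (ι := PP c k ⊕ Fin 2) inferInstance (fun i => Sum.inl (Sum.inl i)) (Sum.inr 0))
      (q_out k (ι := PP c k ⊕ Fin 2) inferInstance (fun i => Sum.inl (Sum.inl i)) (Sum.inr 1)))).congr
      fun n G z => Iff.rfl

/-- the pairs are disjoint -/
def inj {c k n : ℕ} (p : PP c k → Fin n) : Prop := ∀ i j : TT k, i ≠ j → pT p i ≠ pT p j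

theorem q_inj (c k : ℕ) : NCP GS GB (PP c k) (fun n G p => inj p) := by
  unfold inj
  refine NCP.allFin (J := TT k) inferInstance fun i => ?_
  refine NCP.allFin (J := TT k) inferInstance fun j => ?_
  refine NCP.imp (NCP.const inferInstance _) ?_
  exact NCP.not (NCP.eq inferInstance (Sum.inl i) (Sum.inl j))

/-- the first test -/
def T1 (c k n : ℕ) (G : GS n) : Prop := ∃ p : PP c k → Fin n, inj p ∧
  IsPM (hg G (pT p)) (cMp G p) ∧ ∀ x : Fin n, few c n (rsK n (st1 c k n G p) x)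

/-- the first and the second test -/
def T2 (c k n : ℕ) (G : GS n) : Prop := ∃ p : PP c k → Fin n, inj p ∧
  IsPM (hg G (pT p)) (cMp G p) ∧ (∀ x : Fin n, few c n (rsK n (st1 c k n G p) x)) ∧
  ∀ x : Fin n, ∃ y : Fin n, ((augG n (st2 c k n G p).1)^[k] (st2 c k n G p).2).Adj x y

theorem q_test' (c k : ℕ) : NCP GS GB (PP c k) (fun n G p =>
    ∀ x : Fin n, few c n (rsK n (st1 c k n G p) x)) :=
  NCP.comap (κ := PP c k) inferInstance (Sum.elim id Fin.elim0) (q_st1 (c := c) (k := k) (q_test c))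

theorem q_perf' (c k : ℕ) : NCP GS GB (PP c k) (fun n G p =>
    ∀ x : Fin n, ∃ y : Fin n, ((augG n (st2 c k n G p).1)^[k] (st2 c k n G p).2).Adj x y) :=
  NCP.comap (κ := PP c k) inferInstance (Sum.elim id Fin.elim0) (q_st2 (c := c) (k := k) (q_perf k))

theorem q_ex {κ : Type} [Finite κ] {P : RF GS κ} (h : NCP GS GB κ P) :
    NCP GS GB Empty (fun n G _ => ∃ p : κ → Fin n, P n G p) := by
  have h1 := NCP.comap (κ := Empty ⊕ κ) inferInstance Sum.inr h
  exact exTuple κ Empty _ h1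

theorem q_T1 (c k : ℕ) : NCP GS GB Empty (fun n G _ => T1 c k n G) :=
  q_ex (NCP.and (q_inj c k) (NCP.and (q_isPM c k) (q_test' c k)))

theorem q_T2 (c k : ℕ) : NCP GS GB Empty (fun n G _ => T2 c k n G) :=
  q_ex (NCP.and (q_inj c k) (NCP.and (q_isPM c k) (NCP.and (q_test' c k) (q_perf' c k))))

end Pool.Agent.LF
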