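import Pool.Agent.Lib.MP_0087d5_lc.LF.Local
import Pool.Agent.Lib.MP_0087d5_lc.LF.Param
import Pool.Agent.Lib.MP_0087d5_lc.AUG.Gallai
import Pool.Agent.Lib.MP_0087d5_lc.AUG.SearchProg

set_option autoImplicit false
set_option linter.all false

/-!
# The test of a perfect matching: programs
-/

namespace Pool.Agent.LF

open Relation Pool.Agent.PMNC Pool.Agent.UPM Pool.Agent.AUG

variable {n : ℕ} {H M : SimpleGraph (Fin n)} {f g : Fin n → Fin n} {x y z : Fin n}

theorem isM_mate : IsM H.Adj f ↔ Mate H f ∧ ∀ v, f v ≠ v := by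
  constructor
  · intro h
    exact ⟨⟨h.1, fun v _ => h.2 v⟩, fun v hv => (h.2 v).ne hv.symm⟩
  · rintro ⟨h1, h2⟩
    exact ⟨h1.invol, fun v => h1.adj v (h2 v)⟩

/-- the graph `M` is the perfect matching `f` -/
def Is (M : SimpleGraph (Fin n)) (f : Fin n → Fin n) : Prop := ∀ x y, M.Adj x y ↔ y = f x

theorem Is.isMat (hf : IsM H.Adj f) (hM : Is M f) : IsMat H M := by
  constructor
  · intro x y h
    rw [(hM x y).1 h]
    exact hf.2 x
  · intro v w w' h h'
    rw [(hM _ _).1 h, (hM _ _).1 h']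

theorem Is.mt_eq (hf : IsM H.Adj f) (hM : Is M f) : mt M = f := by
  funext x
  have h1 := (mt_mate (hM.isMat hf)).2
  exact ((h1 x (f x)).1 ((hM x (f x)).2 rfl)).1

/-- the allowed edges, computed -/
def alK (n : ℕ) (s : GS2 n) (a b : Fin n) : Prop :=
  s.1.Adj a b ∧ (mt s.2 a = b ∨ ∃ w, mt s.2 b = w ∧ reachK n s w a)

theorem alK_iff (hf : IsM H.Adj f) (hM : Is M f) {a b : Fin n} : alK n (H, M) a b ↔ al H.Adj a b := by
  have hmt : mt M = f := hM.mt_eq hf
  have hmat := hM.isMat hf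
  unfold alK
  simp only [exists_eq_left']
  rw [reachK_iff (H, M) hmat]
  simp only [hmt]
  constructor
  · rintro ⟨h1, h2⟩
    by_cases hab : f a = b
    · exact ⟨f, hf, hab⟩
    · rcases h2 with h2 | h2
      · exact absurd h2 hab
      · obtain ⟨ν, k1, k2, k3⟩ := (allowed_iff (isM_mate.1 hf).1 (isM_mate.1 hf).2 h1 hab).2 h2
        exact ⟨ν, isM_mate.2 ⟨k1, k2⟩, k3⟩
  · rintro ⟨g, hg, hgab⟩
    have h1 : H.Adj a b := by
      rw [← hgab]
      exact hg.2 a
    refine ⟨h1, ?_⟩
    by_cases hab : f a = b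
    · exact Or.inl hab
    · right
      exact (allowed_iff (isM_mate.1 hf).1 (isM_mate.1 hf).2 h1 hab).1
        ⟨g, (isM_mate.1 hg).1, (isM_mate.1 hg).2, hgab⟩

/-- the component relation, computed -/
def cmpK (n : ℕ) (s : GS2 n) (x a : Fin n) : Prop := ReflTransGen (alK n s) x a

theorem cmpK_iff (hf : IsM H.Adj f) (hM : Is M f) {a b : Fin n} : cmpK n (H, M) a b ↔ cmp H.Adj a b := by
  have : alK n (H, M) = al H.Adj := by
    funext a b
    exact propext (alK_iff hf hM)
  unfold cmpK cmp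
  rw [this]

/-- the edges inside the component of `x` and the edges of the matching -/
def rsK (n : ℕ) (s : GS2 n) (x : Fin n) : SimpleGraph (Fin n) where
  Adj a b := (s.1.Adj a b ∧ cmpK n s x a ∧ cmpK n s x b) ∨ s.2.Adj a b
  symm := ⟨fun _ _ h => h.imp (fun h => ⟨h.1.symm, h.2.2, h.2.1⟩) (fun h => h.symm)⟩
  loopless := ⟨fun _ h => h.elim (fun h => h.1.ne rfl) (fun h => h.ne rfl)⟩

theorem rsK_card (hf : IsM H.Adj f) (hM : Is M f) :
    Nat.card {g // IsM (rsK n (H, M) x).Adj g} = Nat.card (Loc H.Adj f x) := by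
  have key : ∀ g : Fin n → Fin n, IsM (rsK n (H, M) x).Adj g ↔
      (IsM H.Adj g ∧ ∀ v, ¬ cmp H.Adj x v → g v = f v) := by
    intro g
    constructor
    · rintro ⟨h1, h2⟩
      refine ⟨⟨h1, fun v => ?_⟩, fun v hv => ?_⟩
      · rcases h2 v with h3 | h3
        · exact h3.1
        · rw [(hM _ _).1 h3]
          exact hf.2 v
      · rcases h2 v with h3 | h3
        · exact absurd ((cmpK_iff hf hM).1 h3.2.1) hv
        · exact (hM _ _).1 h3
    · rintro ⟨hg, h2⟩
      refine ⟨hg.1, fun v => ?_⟩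
      by_cases hv : cmp H.Adj x v
      · exact Or.inl ⟨hg.2 v, (cmpK_iff hf hM).2 hv, (cmpK_iff hf hM).2 (cmp_mate hg hv)⟩
      · exact Or.inr ((hM _ _).2 (h2 v hv))
  exact Nat.card_congr (Equiv.subtypeEquivRight key)

/-- formulas as programs -/
theorem ncp_of_defP {E : ℕ → Type} [Env E] {P : ∀ n, SimpleGraph (Fin n) → E n → Prop}
    (h : DefP (fun n G X x => P n G x)) :
    NCP GS GB (Fin (dim E)) (fun n G z => P n G ((vec n).symm z)) := by
  obtain ⟨φ, hφ⟩ := h
  have h1 := Br.br φ GS GB Empty inferInstance (fun n G => G)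
    (fun n G _ => fun _ _ => False) (NCP.base inferInstance GB.adj)
    (fun i r => NCP.const inferInstance False)
  have h2 := NCP.comap (κ := Fin (dim E)) inferInstance
    (Sum.elim Empty.elim id) h1
  refine h2.congr fun n G z => ?_
  have h3 := hφ n G (fun _ _ => False) ((vec n).symm z)
  rw [Equiv.apply_symm_apply] at h3
  exact h3

/-- at least one and at most `n ^ c` perfect matchings -/
def few (c n : ℕ) (G : SimpleGraph (Fin n)) : Prop :=
  1 ≤ Nat.card {M : G.Subgraph // M.IsPerfectMatching} ∧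
    Nat.card {M : G.Subgraph // M.IsPerfectMatching} ≤ n ^ c

theorem ncp_few (c : ℕ) : NCP GS GB (Fin 0) (fun n G _ => few c n G) :=
  ncp_of_defP (E := fun _ => Unit) (P := fun n G _ => few c n G) (few_pm_def c)

private theorem r_fst {ι : Type} (hι : Finite ι) (i j : ι) :
    NCP GS2 GB2 ι (fun _ s x => s.1.Adj (x i) (x j)) :=
  NCP.comap hι ![i, j] (NCP.base inferInstance GB2.fst)

private theorem r_snd {ι : Type} (hι : Finite ι) (i j : ι) :
    NCP GS2 GB2 ι (fun _ s x => s.2.Adj (x i) (x j)) :=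
  NCP.comap hι ![i, j] (NCP.base inferInstance GB2.snd)

private theorem r_reach {ι : Type} (hι : Finite ι) (i j : ι) :
    NCP GS2 GB2 ι (fun n s x => reachK n s (x i) (x j)) := by
  have h : NCP GS2 GB2 ι (fun n s x => ∃ k : Fin n, distK n (qs n s) (x i) (x j) k) :=
    NCP.ex1 (NCP.comap (κ := Option ι) inferInstance ![some i, some j, none] q2_dist)
  exact h

theorem q_alK : NCP GS2 GB2 (Fin 2) (fun n s x => alK n s (x 0) (x 1)) := by
  unfold alK
  refine NCP.and (r_fst inferInstance 0 1) (NCP.or (fa_mt inferInstance 0 1) (NCP.ex1 ?_))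
  exact NCP.and (fa_mt (ι := Option (Fin 2)) inferInstance (some 1) none)
    (r_reach (ι := Option (Fin 2)) inferInstance none (some 0))

theorem q_cmpK : NCP GS2 GB2 (Fin 2) (fun n s x => cmpK n s (x 0) (x 1)) := by
  have h1 : NCP GS2 GB2 (Fin 3) (fun n s x => alK n s (x 1) (x 2)) :=
    NCP.comap (κ := Fin 3) inferInstance ![1, 2] q_alK
  have h2 := rtc1 (S := GS2) (R := fun n s _ => alK n s) h1
  exact NCP.comap (κ := Fin 2) inferInstance ![0, 0, 1] h2

theorem q_rsK : NCP GS2 GB2 (Fin 3) (fun n s x => (rsK n s (x 0)).Adj (x 1) (x 2)) := by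
  have h := NCP.or (NCP.and (r_fst (ι := Fin 3) inferInstance 1 2)
    (NCP.and (NCP.comap (κ := Fin 3) inferInstance ![0, 1] q_cmpK)
      (NCP.comap (κ := Fin 3) inferInstance ![0, 2] q_cmpK))) (r_snd (ι := Fin 3) inferInstance 1 2)
  exact h.congr fun n s x => Iff.rfl

/-- the test of the components -/
theorem q_test (c : ℕ) : NCP GS2 GB2 (Fin 0) (fun n s _ => ∀ x : Fin n, few c n (rsK n s x)) := by
  have h1 := param (S' := GS2) (B' := GB2) (π := Fin 1) (ncp_few c) inferInstance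
    (fun n s p => rsK n s (p 0)) (by
      intro ι hι P hP
      cases hP with
      | adj =>
        exact NCP.comap (κ := Fin 1 ⊕ Fin 2) inferInstance
          ![Sum.inl 0, Sum.inr 0, Sum.inr 1] q_rsK)
  refine NCP.all1 (R := fun n s _ x => few c n (rsK n s x)) ?_
  exact NCP.comap (κ := Option (Fin 0)) inferInstance (fun _ => none) h1

/-- `k` augmentations -/
theorem q_aug (k : ℕ) : NCP GS2 GB2 (Fin 2) (fun n s x => ((augG n s.1)^[k] s.2).Adj (x 0) (x 1)) := by
  induction k with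
  | zero => exact r_snd inferInstance 0 1
  | succ k ih =>
    refine NCP.pull (S := GS2) (B := GB2) (S' := GS2) (B' := GB2)
      (fun n s => (s.1, augG n s.1 s.2)) ?_ ih
    intro ι hι P hP
    cases hP with
    | fst => exact NCP.base inferInstance GB2.fst
    | snd => exact q3_aug

theorem q_perf (k : ℕ) : NCP GS2 GB2 (Fin 0)
    (fun n s _ => ∀ x : Fin n, ∃ y : Fin n, ((augG n s.1)^[k] s.2).Adj x y) := by
  refine NCP.all1 (S := GS2) (R := fun n s _ x => ∃ y : Fin n, ((augG n s.1)^[k] s.2).Adj x y) ?_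
  refine NCP.ex1 (S := GS2) (R := fun n s z y => ((augG n s.1)^[k] s.2).Adj (z none) y) ?_
  exact NCP.comap (κ := Option (Option (Fin 0))) inferInstance ![some none, none] (q_aug k)

end Pool.Agent.LF
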