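import Mathlib

/-!
# Graphs with locally few perfect matchings: definitions
-/

namespace Pool.Agent.LF

/-- The graph of the edges of `H` that lie in a perfect matching of `H`. -/
def allowed {V : Type*} (H : SimpleGraph V) : SimpleGraph V where
  Adj x y := ∃ M : H.Subgraph, M.IsPerfectMatching ∧ M.Adj x y
  symm := ⟨fun _ _ h => h.imp fun _ h => ⟨h.1, h.2.symm⟩⟩
  loopless := ⟨fun _ h => h.elim fun _ h => h.2.ne rfl⟩

/-- `H` has a perfect matching, and each connected component of the graph `allowed H` has at most `k` perfect matchings. -/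
def LocallyFew {V : Type*} (H : SimpleGraph V) (k : ℕ) : Prop :=
  (∃ M : H.Subgraph, M.IsPerfectMatching) ∧
    ∀ K : (allowed H).ConnectedComponent, Nat.card {M : K.toSimpleGraph.Subgraph // M.IsPerfectMatching} ≤ k

/-- The number `n` of the vertices of `G` is even, and after deletion of at most `c` vertices `G` has locally at most `n ^ c` perfect matchings. -/
def Near (c n : ℕ) (G : SimpleGraph (Fin n)) : Prop :=
  Even n ∧ ∃ F : Finset (Fin n), F.card ≤ c ∧ LocallyFew (G.induce {v | v ∉ F}) (n ^ c)

end Pool.Agent.LF
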