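import Pool.Agent.Lib.MP_0087d5_lc.LF.Corr
import Pool.Agent.Lib.MP_0087d5_lc.LF.Stmt

set_option autoImplicit false
set_option linter.all false

/-!
# Perfect matchings as subgraphs and as maps
-/

namespace Pool.Agent.LF

open Relation Pool.Agent.PMNC Pool.Agent.UPM Pool.Agent.AUG

/-- a perfect matching as a map -/
def PMap {V : Type*} (H : SimpleGraph V) (f : V → V) : Prop := (∀ v, f (f v) = v) ∧ ∀ v, H.Adj v (f v)

section
variable {V : Type*} {H : SimpleGraph V}

def sbOf {f : V → V} (hf : PMap H f) : H.Subgraph where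
  verts := Set.univ
  Adj := fun v w => w = f v
  adj_sub := fun {v w} h => h ▸ hf.2 v
  edge_vert := fun _ => Set.mem_univ _
  symm := ⟨fun v w (h : w = f v) => by
    change v = f w
    rw [h, hf.1]⟩

theorem sbOf_pm {f : V → V} (hf : PMap H f) : (sbOf hf).IsPerfectMatching := by
  constructor
  · intro v _
    exact ⟨f v, rfl, fun w h => h⟩
  · intro v
    exact Set.mem_univ v

theorem ex_map {M : H.Subgraph} (hM : M.IsPerfectMatching) :
    ∃ f : V → V, PMap H f ∧ ∀ v w, M.Adj v w ↔ w = f v := by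
  obtain ⟨h1, h2⟩ := hM
  have h : ∀ v, ∃! w, M.Adj v w := fun v => h1 (h2 v)
  choose f hf huniq using h
  refine ⟨f, ⟨fun v => ?_, fun v => M.adj_sub (hf v)⟩, fun v w => ⟨huniq v w, ?_⟩⟩
  · exact (huniq (f v) v (hf v).symm).symm
  · rintro rfl
    exact hf v

theorem card_pmap (H : SimpleGraph V) :
    Nat.card {M : H.Subgraph // M.IsPerfectMatching} = Nat.card {f // PMap H f} := by
  symm
  refine Nat.card_congr (Equiv.ofBijective (fun f : {f // PMap H f} =>
    (⟨sbOf f.2, sbOf_pm f.2⟩ : {M : H.Subgraph // M.IsPerfectMatching})) ⟨?_, ?_⟩)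
  · rintro ⟨f, hf⟩ ⟨g, hg⟩ h
    have h1 : sbOf hf = sbOf hg := congrArg Subtype.val h
    apply Subtype.ext
    funext v
    have h2 : (sbOf hg).Adj v (f v) := by
      rw [← h1]
      exact rfl
    exact h2
  · rintro ⟨M, hM⟩
    obtain ⟨f, hf, hMf⟩ := ex_map hM
    refine ⟨⟨f, hf⟩, ?_⟩
    apply Subtype.ext
    ext v w
    · exact ⟨fun _ => hM.2 v, fun _ => Set.mem_univ _⟩
    · exact (hMf v w).symm

theorem allowed_adj {x y : V} : (allowed H).Adj x y ↔ ∃ f, PMap H f ∧ f x = y := by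
  constructor
  · rintro ⟨M, hM, h⟩
    obtain ⟨f, hf, hMf⟩ := ex_map hM
    exact ⟨f, hf, ((hMf _ _).1 h).symm⟩
  · rintro ⟨f, hf, rfl⟩
    exact ⟨sbOf hf, sbOf_pm hf, rfl⟩

theorem exists_pm_iff : (∃ M : H.Subgraph, M.IsPerfectMatching) ↔ ∃ f, PMap H f := by
  constructor
  · rintro ⟨M, hM⟩
    obtain ⟨f, hf, _⟩ := ex_map hM
    exact ⟨f, hf⟩
  · rintro ⟨f, hf⟩
    exact ⟨sbOf hf, sbOf_pm hf⟩

end

variable {n : ℕ}

open Classical in
theorem loc_card_eq {A : Fin n → Fin n → Prop} {f : Fin n → Fin n} {x : Fin n} {W : Type*}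
    (K : SimpleGraph W) (e : W → Fin n) (he : Function.Injective e)
    (hr : ∀ v, cmp A x v ↔ ∃ a, e a = v) (hK : ∀ a b, K.Adj a b ↔ al A (e a) (e b))
    (hf : IsM A f) : Nat.card {g // PMap K g} = Nat.card (Loc A f x) := by
  symm
  have h1 : ∀ g : Loc A f x, ∃ g' : W → W, PMap K g' ∧ ∀ a, e (g' a) = g.1 (e a) := by
    rintro ⟨g, hg, hgf⟩
    have h2 : ∀ a : W, ∃ b : W, e b = g (e a) := fun a =>
      (hr _).1 (cmp_mate hg ((hr _).2 ⟨a, rfl⟩))
    choose g' hg' using h2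
    refine ⟨g', ⟨fun a => ?_, fun a => ?_⟩, hg'⟩
    · apply he
      rw [hg', hg', hg.1]
    · rw [hK]
      exact ⟨g, hg, (hg' a).symm⟩
  choose Φ hΦ1 hΦ2 using h1
  refine Nat.card_congr (Equiv.ofBijective (fun g => (⟨Φ g, hΦ1 g⟩ : {g // PMap K g})) ⟨?_, ?_⟩)
  · intro g₁ g₂ h
    have h' : Φ g₁ = Φ g₂ := congrArg Subtype.val h
    apply Subtype.ext
    funext v
    by_cases hv : cmp A x v
    · obtain ⟨a, rfl⟩ := (hr _).1 hv
      rw [← hΦ2, ← hΦ2, h']
    · rw [g₁.2.2 v hv, g₂.2.2 v hv]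
  · rintro ⟨g', h1, h2⟩
    let g : Fin n → Fin n := fun v => if h : ∃ a, e a = v then e (g' h.choose) else f v
    have hg1 : ∀ a, g (e a) = e (g' a) := by
      intro a
      have h : ∃ b, e b = e a := ⟨a, rfl⟩
      have h3 : h.choose = a := he h.choose_spec
      change (if h : ∃ b, e b = e a then e (g' h.choose) else f (e a)) = _
      rw [dif_pos h, h3]
    have hg2 : ∀ v, ¬ cmp A x v → g v = f v := by
      intro v hv
      change (if h : ∃ b, e b = v then e (g' h.choose) else f v) = _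
      rw [dif_neg (fun h => hv ((hr v).2 h))]
    have hgM : IsM A g := by
      constructor
      · intro v
        by_cases hv : cmp A x v
        · obtain ⟨a, rfl⟩ := (hr _).1 hv
          rw [hg1, hg1, h1]
        · rw [hg2 v hv, hg2 _ (fun h => hv ((cmp_mate_iff hf).1 h)), hf.1]
      · intro v
        by_cases hv : cmp A x v
        · obtain ⟨a, rfl⟩ := (hr _).1 hv
          rw [hg1]
          obtain ⟨f₁, hf₁, h3⟩ := (hK _ _).1 (h2 a)
          rw [← h3]
          exact hf₁.2 _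
        · rw [hg2 v hv]
          exact hf.2 v
    refine ⟨⟨g, hgM, hg2⟩, ?_⟩
    apply Subtype.ext
    funext a
    apply he
    change e (Φ ⟨g, hgM, hg2⟩ a) = e (g' a)
    rw [hΦ2]
    exact hg1 a

section
variable {k : ℕ} {G : SimpleGraph (Fin n)} {F : Finset (Fin n)} {t : TT k → Fin n}

theorem hg_pair {f : Fin n → Fin n} (ht : Function.Injective t) (hf : IsM (hg G t).Adj f) (p : TT k) :
    f (t p) = t (p.1, !p.2) := by
  rcases hf.2 (t p) with h | ⟨_, q, h2, h3⟩
  · exact absurd rfl (h.2.1 p)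
  · rw [← h3, ht h2]

theorem hg_out {f : Fin n → Fin n} (hf : IsM (hg G t).Adj f) {v : Fin n} (hv : ∀ p, t p ≠ v) :
    G.Adj v (f v) ∧ ∀ p, t p ≠ f v := by
  rcases hf.2 v with h | ⟨_, q, h2, h3⟩
  · exact ⟨h.1, h.2.2⟩
  · exact absurd h2 (hv q)

theorem out_iff (hF : ∀ v, v ∈ F ↔ ∃ p, t p = v) {v : Fin n} : v ∉ F ↔ ∀ p, t p ≠ v := by
  rw [hF]
  push Not
  exact Iff.rfl

theorem res_map (hF : ∀ v, v ∈ F ↔ ∃ p, t p = v) {f : Fin n → Fin n} (hf : IsM (hg G t).Adj f) :
    ∃ f' : {v | v ∉ F} → {v | v ∉ F}, PMap (G.induce {v | v ∉ F}) f' ∧ ∀ v, (f' v : Fin n) = f v := by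
  refine ⟨fun v => ⟨f v, (out_iff hF).2 (hg_out hf ((out_iff hF).1 v.2)).2⟩, ⟨fun v => ?_, fun v => ?_⟩,
    fun v => rfl⟩
  · apply Subtype.ext
    exact hf.1 v
  · exact (hg_out hf ((out_iff hF).1 v.2)).1

open Classical in
theorem ext_map (ht : Function.Injective t) (hF : ∀ v, v ∈ F ↔ ∃ p, t p = v)
    {f' : {v | v ∉ F} → {v | v ∉ F}} (hf : PMap (G.induce {v | v ∉ F}) f') :
    ∃ f : Fin n → Fin n, IsM (hg G t).Adj f ∧ ∀ v, (f' v : Fin n) = f v := by
  let f : Fin n → Fin n := fun v => if h : v ∉ F then (f' ⟨v, h⟩ : Fin n) else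
    if h : ∃ p, t p = v then t (h.choose.1, !h.choose.2) else v
  have h1 : ∀ v (h : v ∉ F), f v = f' ⟨v, h⟩ := by
    intro v h
    change (if h : v ∉ F then (f' ⟨v, h⟩ : Fin n) else
      if h : ∃ p, t p = v then t (h.choose.1, !h.choose.2) else v) = _
    rw [dif_pos h]
  have h2 : ∀ p, f (t p) = t (p.1, !p.2) := by
    intro p
    have h3 : t p ∈ F := (hF _).2 ⟨p, rfl⟩
    have h4 : ∃ q, t q = t p := ⟨p, rfl⟩
    have h5 : h4.choose = p := ht h4.choose_spec
    change (if h : t p ∉ F then (f' ⟨t p, h⟩ : Fin n) else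
      if h : ∃ q, t q = t p then t (h.choose.1, !h.choose.2) else t p) = _
    rw [dif_neg (fun h => h h3), dif_pos h4, h5]
  refine ⟨f, ⟨fun v => ?_, fun v => ?_⟩, fun v => (h1 v.1 v.2).symm⟩
  · by_cases hv : v ∈ F
    · obtain ⟨p, rfl⟩ := (hF _).1 hv
      rw [h2, h2]
      simp
    · rw [h1 v hv, h1 _ (f' ⟨v, hv⟩).2]
      exact congrArg Subtype.val (hf.1 ⟨v, hv⟩)
  · by_cases hv : v ∈ F
    · obtain ⟨p, rfl⟩ := (hF _).1 hv
      rw [h2]
      refine Or.inr ⟨fun h => ?_, p, rfl, rfl⟩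
      have := ht h
      have h3 := congrArg Prod.snd this
      simp at h3
    · rw [h1 v hv]
      exact Or.inl ⟨hf.2 ⟨v, hv⟩, (out_iff hF).1 hv, (out_iff hF).1 (f' ⟨v, hv⟩).2⟩

theorem allowed_al (ht : Function.Injective t) (hF : ∀ v, v ∈ F ↔ ∃ p, t p = v) {x y : {v | v ∉ F}} :
    (allowed (G.induce {v | v ∉ F})).Adj x y ↔ al (hg G t).Adj x y := by
  rw [allowed_adj]
  constructor
  · rintro ⟨f', hf', rfl⟩
    obtain ⟨f, hf, h⟩ := ext_map ht hF hf'
    exact ⟨f, hf, (h x).symm⟩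
  · rintro ⟨f, hf, h⟩
    obtain ⟨f', hf', h'⟩ := res_map hF hf
    exact ⟨f', hf', Subtype.ext ((h' x).trans h)⟩

theorem cmp_out (hF : ∀ v, v ∈ F ↔ ∃ p, t p = v) {x y : Fin n} (hx : x ∉ F)
    (h : cmp (hg G t).Adj x y) : y ∉ F := by
  induction h with
  | refl => exact hx
  | tail _ h ih =>
    obtain ⟨f, hf, rfl⟩ := h
    exact (out_iff hF).2 (hg_out hf ((out_iff hF).1 ih)).2

theorem reach_cmp (ht : Function.Injective t) (hF : ∀ v, v ∈ F ↔ ∃ p, t p = v) {x y : {v | v ∉ F}} :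
    (allowed (G.induce {v | v ∉ F})).Reachable x y ↔ cmp (hg G t).Adj x y := by
  rw [SimpleGraph.reachable_iff_reflTransGen]
  constructor
  · intro h
    induction h with
    | refl => exact ReflTransGen.refl
    | tail _ h ih => exact ih.tail ((allowed_al ht hF).1 h)
  · obtain ⟨x, hx⟩ := x
    obtain ⟨y, hy⟩ := y
    intro h
    change cmp (hg G t).Adj x y at h
    induction h with
    | refl => exact ReflTransGen.refl
    | @tail b c hab h ih =>
      have hb : b ∉ F := cmp_out hF hx hab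
      exact (ih hb).tail ((allowed_al ht hF).2 h)

theorem loc_in (ht : Function.Injective t) (hF : ∀ v, v ∈ F ↔ ∃ p, t p = v) {f : Fin n → Fin n}
    (hf : IsM (hg G t).Adj f) {x : Fin n} (hx : x ∈ F) : Nat.card (Loc (hg G t).Adj f x) ≤ 1 := by
  have h1 : ∀ v, cmp (hg G t).Adj x v → v ∈ F := by
    intro v hv
    by_contra hc
    exact cmp_out hF hc (cmp_symm hv) hx
  have : Subsingleton (Loc (hg G t).Adj f x) := by
    constructor
    intro g₁ g₂
    apply Subtype.ext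
    funext v
    by_cases hv : cmp (hg G t).Adj x v
    · obtain ⟨p, rfl⟩ := (hF _).1 (h1 v hv)
      rw [hg_pair ht g₁.2.1, hg_pair ht g₂.2.1]
    · rw [g₁.2.2 v hv, g₂.2.2 v hv]
  exact Finite.card_le_one_iff_subsingleton.2 this

theorem locallyFew_iff (ht : Function.Injective t) (hF : ∀ v, v ∈ F ↔ ∃ p, t p = v) {N : ℕ}
    (hN : 1 ≤ N) : LocallyFew (G.induce {v | v ∉ F}) N ↔ lf (hg G t).Adj N := by
  have key : ∀ {f : Fin n → Fin n} (hf : IsM (hg G t).Adj f) (x : {v | v ∉ F}),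
      Nat.card {M : ((allowed (G.induce {v | v ∉ F})).connectedComponentMk x).toSimpleGraph.Subgraph //
        M.IsPerfectMatching} = Nat.card (Loc (hg G t).Adj f x) := by
    intro f hf x
    rw [card_pmap]
    refine loc_card_eq _ (fun a => ((a : {v | v ∉ F}) : Fin n)) ?_ ?_ ?_ hf
    · intro a b h
      exact Subtype.ext (Subtype.ext h)
    · intro v
      constructor
      · intro hv
        have h1 : v ∉ F := cmp_out hF x.2 hv
        refine ⟨⟨⟨v, h1⟩, ?_⟩, rfl⟩
        change (allowed (G.induce {v | v ∉ F})).connectedComponentMk ⟨v, h1⟩ =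
          (allowed (G.induce {v | v ∉ F})).connectedComponentMk x
        rw [SimpleGraph.ConnectedComponent.eq]
        exact ((reach_cmp ht hF).2 hv).symm
      · rintro ⟨a, rfl⟩
        have h1 : (allowed (G.induce {v | v ∉ F})).connectedComponentMk a =
          (allowed (G.induce {v | v ∉ F})).connectedComponentMk x := a.2
        rw [SimpleGraph.ConnectedComponent.eq] at h1
        exact (reach_cmp ht hF).1 h1.symm
    · intro a b
      exact allowed_al ht hF
  unfold LocallyFew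
  rw [exists_pm_iff]
  constructor
  · rintro ⟨⟨f', hf'⟩, h⟩
    obtain ⟨f, hf, _⟩ := ext_map ht hF hf'
    refine ⟨f, hf, fun x => ?_⟩
    by_cases hx : x ∈ F
    · exact (loc_in ht hF hf hx).trans hN
    · have := key hf ⟨x, hx⟩
      exact this ▸ h _
  · rintro ⟨f, hf, h⟩
    obtain ⟨f', hf', _⟩ := res_map hF hf
    refine ⟨⟨f', hf'⟩, fun K => ?_⟩
    induction K using SimpleGraph.ConnectedComponent.ind with
    | h x =>
      rw [key hf x]
      exact h x

end

theorem near_iff {c : ℕ} (hn : 1 ≤ n) (G : SimpleGraph (Fin n)) : Near c n G ↔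
    ∃ k, 2 * k ≤ c ∧ ∃ t : TT k → Fin n, Function.Injective t ∧ lf (hg G t).Adj (n ^ c) := by
  classical
  have hN : 1 ≤ n ^ c := Nat.one_le_pow _ _ hn
  constructor
  · rintro ⟨he, F, hFc, hl⟩
    obtain ⟨M, hM⟩ := hl.1
    have h1 := hM.even_card
    have h2 : Fintype.card {v | v ∉ F} = n - F.card := by
      have : Fintype.card {v : Fin n // v ∉ F} = n - F.card := by
        rw [Fintype.card_subtype_compl, Fintype.card_fin, Fintype.card_coe]
      exact this
    rw [h2] at h1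
    have h3 : F.card ≤ n := by
      have := F.card_le_univ
      rwa [Fintype.card_fin] at this
    have h4 : Even F.card := by
      rw [Nat.even_sub h3] at h1
      exact h1.1 he
    obtain ⟨k, hk⟩ := h4
    have h5 : Fintype.card (TT k) = Fintype.card F := by
      rw [Fintype.card_coe, hk]
      simp
      omega
    let e : TT k ≃ F := Fintype.equivOfCardEq h5
    refine ⟨k, by omega, fun p => e p, ?_, ?_⟩
    · intro p q h
      exact e.injective (Subtype.ext h)
    · refine (locallyFew_iff ?_ ?_ hN).1 hl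
      · intro p q h
        exact e.injective (Subtype.ext h)
      · intro v
        constructor
        · intro hv
          exact ⟨e.symm ⟨v, hv⟩, by simp⟩
        · rintro ⟨p, rfl⟩
          exact (e p).2
  · rintro ⟨k, hk, t, ht, hl⟩
    refine ⟨?_, Finset.univ.image t, ?_, ?_⟩
    · obtain ⟨f, hf, _⟩ := hl
      have := (subOf_pm hf).even_card
      rwa [Fintype.card_fin] at this
    · refine Finset.card_image_le.trans ?_
      rw [Finset.card_univ]
      simp
      omega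
    · refine (locallyFew_iff ht ?_ hN).2 hl
      intro v
      simp

theorem near_zero {c : ℕ} (G : SimpleGraph (Fin 0)) : Near c 0 G := by
  refine ⟨Even.zero, ∅, by simp, ?_⟩
  have : IsEmpty {v : Fin 0 | v ∉ (∅ : Finset (Fin 0))} := ⟨fun v => Fin.elim0 v.1⟩
  constructor
  · rw [exists_pm_iff]
    exact ⟨fun v => v, fun v => rfl, fun v => this.elim v⟩
  · intro K
    induction K using SimpleGraph.ConnectedComponent.ind with
    | h x => exact this.elim x

theorem near_one {c : ℕ} (G : SimpleGraph (Fin 1)) : ¬ Near c 1 G := by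
  rintro ⟨h, _⟩
  exact absurd h (by decide)

theorem ncp_zero {S : ℕ → Type} {B : Readers S} : NCP S B Empty (fun n _ _ => n = 0) := by
  have h : NCP S B Empty (fun n _ _ => ¬ ∃ a : Fin n, True) :=
    NCP.not (NCP.ex1 (R := fun _ _ _ _ => True) (NCP.const inferInstance True))
  refine h.congr fun n s x => ?_
  constructor
  · intro h
    by_contra hc
    exact h ⟨⟨0, Nat.pos_of_ne_zero hc⟩, trivial⟩
  · rintro rfl ⟨a, _⟩
    exact a.elim0

theorem ncp_one' {S : ℕ → Type} {B : Readers S} : NCP S B Empty (fun n _ _ => 2 ≤ n) := by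
  have h : NCP S B Empty (fun n _ _ => ∃ a : Fin n, ∃ b : Fin n, a ≠ b) := by
    refine NCP.ex1 (R := fun _ _ _ a => ∃ b, a ≠ b) ?_
    refine NCP.ex1 (R := fun _ _ z b => z none ≠ b) ?_
    exact NCP.not (NCP.eq inferInstance _ _)
  refine h.congr fun n s x => ?_
  constructor
  · rintro ⟨a, b, hab⟩
    by_contra hc
    apply hab
    apply Fin.ext
    omega
  · intro h
    exact ⟨⟨0, by omega⟩, ⟨1, by omega⟩, by simp [Fin.ext_iff]⟩

theorem near_T1 {c n : ℕ} {G : SimpleGraph (Fin n)} :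
    Near c n G ↔ (n = 0 ∨ (2 ≤ n ∧ ∃ k : {k : Fin (c + 1) // 2 * k.val ≤ c}, T1 c k.1 n G)) := by
  rcases Nat.lt_or_ge n 2 with hn | hn
  · have h : n = 0 ∨ n = 1 := by omega
    rcases h with h | h
    · subst h
      simp [near_zero]
    · subst h
      simp [near_one]
  · rw [near_iff (by omega)]
    constructor
    · rintro ⟨k, hk, h⟩
      exact Or.inr ⟨hn, ⟨⟨k, by omega⟩, hk⟩, (T1_iff hn).2 h⟩
    · rintro (h | ⟨_, ⟨k, hk⟩, h⟩)
      · omega
      · exact ⟨k, hk, (T1_iff hn).1 h⟩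

theorem near_T2 {c n : ℕ} {G : SimpleGraph (Fin n)} : (Near c n G ∧ HasPM G) ↔
    (n = 0 ∨ (2 ≤ n ∧ ∃ k : {k : Fin (c + 1) // 2 * k.val ≤ c}, T2 c k.1 n G)) := by
  rw [near_T1]
  constructor
  · rintro ⟨h | ⟨h1, k, h2⟩, hG⟩
    · exact Or.inl h
    · exact Or.inr ⟨h1, k, T2_iff.2 ⟨h2, hG⟩⟩
  · rintro (h | ⟨h1, k, h2⟩)
    · refine ⟨Or.inl h, ?_⟩
      subst h
      exact hasPM_iff.2 ⟨fun v => v, fun v => rfl, fun v => v.elim0⟩
    · exact ⟨Or.inr ⟨h1, k, (T2_iff.1 h2).1⟩, (T2_iff.1 h2).2⟩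

theorem near_nc (c : ℕ) : Pool.Agent.UPM.InNC (fun n G => Near c n G) := by
  have h : NCP GS GB Empty (fun n G _ =>
      (n = 0 ∨ (2 ≤ n ∧ ∃ k : {k : Fin (c + 1) // 2 * k.val ≤ c}, T1 c k.1 n G))) := by
    refine NCP.or ncp_zero (NCP.and ncp_one' ?_)
    refine NCP.exFin (J := {k : Fin (c + 1) // 2 * k.val ≤ c}) inferInstance fun k => ?_
    exact q_T1 c k.1
  have h2 := inNC_of_NCP h
  have e : (fun (n : ℕ) (G : SimpleGraph (Fin n)) => Near c n G) = fun n G =>
      (n = 0 ∨ (2 ≤ n ∧ ∃ k : {k : Fin (c + 1) // 2 * k.val ≤ c}, T1 c k.1 n G)) := by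
    funext n G
    exact propext near_T1
  rw [e]
  exact h2

theorem near_pm_nc (c : ℕ) : Pool.Agent.UPM.InNC (fun n G => Near c n G ∧ HasPM G) := by
  have h : NCP GS GB Empty (fun n G _ =>
      (n = 0 ∨ (2 ≤ n ∧ ∃ k : {k : Fin (c + 1) // 2 * k.val ≤ c}, T2 c k.1 n G))) := by
    refine NCP.or ncp_zero (NCP.and ncp_one' ?_)
    refine NCP.exFin (J := {k : Fin (c + 1) // 2 * k.val ≤ c}) inferInstance fun k => ?_
    exact q_T2 c k.1
  have h2 := inNC_of_NCP h
  have e : (fun (n : ℕ) (G : SimpleGraph (Fin n)) => Near c n G ∧ HasPM G) = fun n G =>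
      (n = 0 ∨ (2 ≤ n ∧ ∃ k : {k : Fin (c + 1) // 2 * k.val ≤ c}, T2 c k.1 n G)) := by
    funext n G
    exact propext near_T2
  rw [e]
  exact h2

end Pool.Agent.LF
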